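import Pool.Agent.Q296.SC.Fin

/-!
# Snark covers of cubic graphs that are not 3-edge-colourable

`MP_faaf88_co`, Q1: let `A` be a finite connected cubic graph, multiple edges, loops and semi-edges
allowed, that is not 3-edge-colourable.  Is there a simple, 2-connected graph that is not
3-edge-colourable and covers `A`?  We prove that the answer is yes.

Proof.  (1) Two copies of `A` in which the two copies of each semi-edge are joined by an edge form a
cover without semi-edges that is not 3-edge-colourable.  (2) Let `A` have no semi-edges, and let `K`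
be a simple voltage cover of `A` (group `(ℤ/3)^D`).  Replace each edge of `A` by a chain of two
copies of `K` minus an edge above it.  This is a simple cover, and it is not 3-edge-colourable by the
parity lemma (the two edges of a 2-edge-cut have the same colour).  (3) Some component of it is not
3-edge-colourable.  So let `A` be simple and connected.  (4) Suppose that `A` has a bridge; let `S` be
a smallest set of vertices left by exactly one edge `e`, `b` the end of `e` in `S`, and `g` another
edge at `b`; `g` is not a bridge.  Let `M` be the edge set of a spanning tree without `g`.  Consider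
the 10-fold cover whose sheets are the vertices of the Petersen graph, with the voltage `σ` (the
two 5-cycles) on `g`, `τ` (the perfect matching between them) on the edges outside of `M` and
outside of `S`, and `1` on the other edges.  By the parity lemma a 3-edge-colouring of this cover
gives a 3-edge-colouring of the Petersen graph, which does not exist.  The cover has no cut with at
most one edge, since no `σ`-invariant set of sheets differs from a `τ`-invariant set in exactly one
element.

The definitions of graphs with multiple edges, loops and semi-edges (`MGraph`, `MGraph.Cubic`,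
`MGraph.Connected`, `MGraph.Colourable`) are in `Pool/Agent/Q296/SC/Basic.lean`.
-/

set_option autoImplicit false

namespace Pool.Agent.Results.MP_faaf88_co.SnarkCovers

open Pool.Agent.Q296.SC Finset

/-- The simple graph `G` covers `A`: there are a map `f` of the vertices and a map `F` of the
edge-ends (an edge-end of a simple graph is a dart, i.e. an edge together with one of its ends), such
that an edge-end at `w` goes to an edge-end at `f w`, this is a bijection from the edge-ends at `w`
to the edge-ends at `f w` for each `w`, and the two ends of an edge of `G` go to the two ends of an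
edge of `A`, or both to the end of a semi-edge. -/
def Covers {W : Type} (G : SimpleGraph W) (A : MGraph) : Prop :=
  ∃ (f : W → A.V) (F : G.Dart → A.D),
    (∀ a : G.Dart, A.beg (F a) = f a.fst) ∧
    (∀ (w : W) (d : A.D), A.beg d = f w → ∃! a : G.Dart, a.fst = w ∧ F a = d) ∧
    ∀ a : G.Dart, F a.symm = A.inv (F a)

/-- `G` is 2-connected: it has at least three vertices, it is connected, and it stays connected when
any one vertex is deleted. -/
def TwoConnected {W : Type} (G : SimpleGraph W) : Prop :=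
  3 ≤ Nat.card W ∧ G.Connected ∧ ∀ w : W, (G.induce ({w}ᶜ : Set W)).Connected

/-- connectedness from cuts -/
theorem connected_of {W : Type} [Nonempty W] (H : SimpleGraph W)
    (h : ∀ X : W → Prop, (∃ v, X v) → (∃ v, ¬ X v) → ∃ u v, X u ∧ ¬ X v ∧ H.Adj u v) :
    H.Connected := by
  refine ⟨fun u v => ?_⟩
  by_contra hcon
  obtain ⟨x, y, hx, hy, hxy⟩ := h (fun w => H.Reachable u w) ⟨u, SimpleGraph.Reachable.refl u⟩
    ⟨v, hcon⟩
  exact hy (hx.trans hxy.reachable)

/-- the simple graph of a simple `MGraph` -/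
def sim (B : MGraph) (hB : Simp B) : SimpleGraph B.V where
  Adj u v := ∃ d, B.beg d = u ∧ B.beg (B.inv d) = v
  symm := ⟨by
    rintro u v ⟨d, h1, h2⟩
    exact ⟨B.inv d, h2, by rw [B.inv_inv, h1]⟩⟩
  loopless := ⟨by
    rintro u ⟨d, h1, h2⟩
    exact hB.1 d (h2.trans h1.symm)⟩

theorem two_connected {B : MGraph} (hA : B.Cubic) (hB : Simp B) (hC : Conn2 B)
    (hcol : ¬ B.Colourable) : TwoConnected (sim B hB) := by
  classical
  have hne : Nonempty B.V := by
    by_contra h
    rw [not_nonempty_iff] at h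
    exact hcol ⟨fun _ => 0, fun _ => rfl, fun d => (h.elim (B.beg d))⟩
  have hdart : ∀ v : B.V, ∃ d, B.beg d = v := by
    intro v
    have h1 := hA v
    have h2 : Nonempty {d // B.beg d = v} := by
      rw [← not_isEmpty_iff]
      intro h
      rw [Nat.card_of_isEmpty] at h1
      exact absurd h1 (by decide)
    obtain ⟨d, hd⟩ := h2
    exact ⟨d, hd⟩
  refine ⟨?_, ?_, fun w => ?_⟩
  · obtain ⟨v⟩ := hne
    obtain ⟨e, rfl⟩ := hdart v
    obtain ⟨g, h, hg, hh, ge, hne, gh, -⟩ := three hA e
    have k1 : B.beg (B.inv g) ≠ B.beg (B.inv e) := fun h1 => ge (hB.2 _ _ hg h1)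
    have k2 : B.beg (B.inv h) ≠ B.beg (B.inv e) := fun h1 => hne (hB.2 _ _ hh h1)
    have k3 : B.beg (B.inv g) ≠ B.beg (B.inv h) := fun h1 => gh (hB.2 _ _ (hg.trans hh.symm) h1)
    rw [Nat.card_eq_fintype_card, ← card_univ]
    refine le_trans ?_ (card_le_card (subset_univ {B.beg (B.inv e), B.beg (B.inv g), B.beg (B.inv h)}))
    rw [card_insert_of_notMem, card_insert_of_notMem, card_singleton]
    · rw [mem_singleton]
      exact k3
    · rw [mem_insert, mem_singleton]
      push Not
      exact ⟨k1.symm, k2.symm⟩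
  · refine connected_of _ fun X hX hX' => ?_
    have h1 := hC X hX hX'
    obtain ⟨d, hd⟩ := card_pos.1 (show 0 < (bd B X).card by omega)
    have h2 := mem_bd.1 hd
    exact ⟨B.beg d, B.beg (B.inv d), h2.1, h2.2, d, rfl, rfl⟩
  · obtain ⟨d0, hd0⟩ := hdart w
    have hw : B.beg (B.inv d0) ≠ w := by
      rw [← hd0]
      exact hB.1 d0
    have : Nonempty (({w}ᶜ : Set B.V) : Type) := ⟨⟨B.beg (B.inv d0), hw⟩⟩
    refine connected_of _ fun X hX hX' => ?_
    by_contra hcon
    push Not at hcon
    obtain ⟨⟨x, hxw⟩, hx⟩ := hX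
    obtain ⟨⟨y, hyw⟩, hy⟩ := hX'
    have hmem : ∀ v : B.V, v ≠ w → v ∈ ({w}ᶜ : Set B.V) := fun v hv => hv
    have b1 : ∀ d ∈ bd B (fun v => ∃ h : v ∈ ({w}ᶜ : Set B.V), X ⟨v, h⟩), B.beg (B.inv d) = w := by
      intro d hd
      by_contra h1
      obtain ⟨⟨h2, h3⟩, h4⟩ := mem_bd.1 hd
      exact hcon ⟨B.beg d, h2⟩ ⟨B.beg (B.inv d), hmem _ h1⟩ h3 (fun h5 => h4 ⟨_, h5⟩) ⟨d, rfl, rfl⟩
    have b2 : ∀ d ∈ bd B (fun v => ∃ h : v ∈ ({w}ᶜ : Set B.V), ¬ X ⟨v, h⟩), B.beg (B.inv d) = w := by
      intro d hd
      by_contra h1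
      obtain ⟨⟨h2, h3⟩, h4⟩ := mem_bd.1 hd
      have h5 : X ⟨B.beg (B.inv d), hmem _ h1⟩ := by
        by_contra h6
        exact h4 ⟨_, h6⟩
      exact hcon ⟨B.beg (B.inv d), hmem _ h1⟩ ⟨B.beg d, h2⟩ h5 h3
        ⟨B.inv d, rfl, by rw [B.inv_inv]; rfl⟩
    have c1 := hC (fun v => ∃ h : v ∈ ({w}ᶜ : Set B.V), X ⟨v, h⟩) ⟨x, hxw, hx⟩
      ⟨w, fun h => h.1 rfl⟩
    have c2 := hC (fun v => ∃ h : v ∈ ({w}ᶜ : Set B.V), ¬ X ⟨v, h⟩) ⟨y, hyw, hy⟩
      ⟨w, fun h => h.1 rfl⟩
    have hdisj : Disjoint (bd B (fun v => ∃ h : v ∈ ({w}ᶜ : Set B.V), X ⟨v, h⟩))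
        (bd B (fun v => ∃ h : v ∈ ({w}ᶜ : Set B.V), ¬ X ⟨v, h⟩)) := by
      rw [Finset.disjoint_left]
      intro d h1 h2
      obtain ⟨⟨_, h3⟩, -⟩ := mem_bd.1 h1
      obtain ⟨⟨_, h4⟩, -⟩ := mem_bd.1 h2
      exact h4 h3
    have h3 := hA w
    rw [Nat.card_eq_fintype_card, Fintype.card_subtype] at h3
    have h4 : (bd B (fun v => ∃ h : v ∈ ({w}ᶜ : Set B.V), X ⟨v, h⟩) ∪
        bd B (fun v => ∃ h : v ∈ ({w}ᶜ : Set B.V), ¬ X ⟨v, h⟩)).card ≤
        (univ.filter fun d => B.beg d = w).card := by
      refine card_le_card_of_injOn B.inv ?_ ?_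
      · intro d hd
        simp only [coe_union, Set.mem_union, mem_coe] at hd
        simp only [coe_filter, mem_univ, true_and, Set.mem_ofPred_eq]
        rcases hd with hd | hd
        · exact b1 d hd
        · exact b2 d hd
      · intro d _ d' _ h
        rw [← B.inv_inv d, h, B.inv_inv]
    rw [card_union_of_disjoint hdisj, h3] at h4
    omega

theorem not_colorable {B : MGraph} (hB : Simp B) (hcol : ¬ B.Colourable) :
    ¬ (sim B hB).lineGraph.Colorable 3 := by
  rintro ⟨C⟩
  apply hcol
  have hadj : ∀ d : B.D, (sim B hB).Adj (B.beg d) (B.beg (B.inv d)) := fun d => ⟨d, rfl, rfl⟩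
  refine ⟨fun d => C ⟨s(B.beg d, B.beg (B.inv d)), hadj d⟩, fun d => ?_, fun d d' h1 h2 => ?_⟩
  · simp only
    congr 2
    rw [B.inv_inv, Sym2.eq_swap]
  · apply C.valid
    rw [SimpleGraph.lineGraph_adj_iff_exists]
    refine ⟨fun h3 => h2 ?_, B.beg d, ?_, ?_⟩
    · have h4 : s(B.beg d, B.beg (B.inv d)) = s(B.beg d', B.beg (B.inv d')) := congrArg Subtype.val h3
      rw [Sym2.eq_iff] at h4
      rcases h4 with h4 | h4
      · exact hB.2 _ _ h1 h4.2
      · exfalso
        apply hB.1 d
        rw [h4.2, h1]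
    · simp
    · simp [h1]

theorem covers {A B : MGraph} (p : Cov B A) (hB : Simp B) : Covers (sim B hB) A := by
  have hd : ∀ a : (sim B hB).Dart, ∃ d, B.beg d = a.fst ∧ B.beg (B.inv d) = a.snd := fun a => a.adj
  choose D hD1 hD2 using hd
  refine ⟨p.f, fun a => p.F (D a), fun a => ?_, fun w d hwd => ?_, fun a => ?_⟩
  · rw [p.beg, hD1]
  · obtain ⟨x, ⟨hx1, hx2⟩, hx3⟩ := p.bij w d hwd
    refine ⟨⟨(B.beg x, B.beg (B.inv x)), ⟨x, rfl, rfl⟩⟩, ⟨hx1, ?_⟩, ?_⟩
    · have : D ⟨(B.beg x, B.beg (B.inv x)), ⟨x, rfl, rfl⟩⟩ = x := hB.2 _ _ (hD1 _) (hD2 _)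
      simp only
      rw [this, hx2]
    · rintro a ⟨h1, h2⟩
      have h3 : D a = x := hx3 _ ⟨by rw [hD1, h1], h2⟩
      apply SimpleGraph.Dart.ext
      apply Prod.ext
      · show a.fst = B.beg x
        rw [← h3, hD1]
      · show a.snd = B.beg (B.inv x)
        rw [← h3, hD2]
  · simp only
    rw [← p.inv]
    congr 1
    refine hB.2 _ _ ?_ ?_
    · rw [hD1, hD2]
      rfl
    · rw [hD2, B.inv_inv, hD1]
      rfl

/-- **Theorem.** Every finite connected cubic graph `A`, multiple edges, loops and semi-edges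
allowed, that is not 3-edge-colourable is covered by a finite simple 2-connected graph `G` that is
not 3-edge-colourable (the line graph of `G` has no proper colouring with three colours). -/
theorem result (A : MGraph) (_hconn : A.Connected) (hA : A.Cubic) (hcol : ¬ A.Colourable) :
    ∃ (W : Type) (_ : Finite W) (G : SimpleGraph W),
      TwoConnected G ∧ ¬ G.lineGraph.Colorable 3 ∧ Covers G A := by
  obtain ⟨B, p, h1, h2, h3⟩ := exists_cover hA hcol
  exact ⟨B.V, inferInstance, sim B h2, two_connected (p.cubic hA) h2 h1 h3, not_colorable h2 h3,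
    covers p h2⟩

end Pool.Agent.Results.MP_faaf88_co.SnarkCovers
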